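import Pool.Agent.Lib.MP_5c3535_an.Unital

set_option autoImplicit false

/-!
# A nonseparable unital AF algebra which is not isomorphic to its opposite (MP_5c3535_an, Q1)

The example of the frozen solution, made unital, and with more information: it has no complex
linear anti-automorphism at all (not even one which is discontinuous or does not preserve the
involution), and its unital *-homomorphisms to the 3 by 3 matrices separate the points.
-/

namespace Pool.Agent.Results.MP_5c3535_an.UnitalSubhomogeneous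

open Pool.Agent.Lib.MP_5c3535_an

/-- **Answer to Q1 (yes).**  There is a unital nonseparable AF algebra, with enough unital
*-homomorphisms to `M_3(ℂ)`, which is not isomorphic to its opposite algebra; it has no bijective
complex linear self-map which reverses products. -/
theorem result :
    ∃ (A : Type) (_ : CStarAlgebra A),
      (∃ S : Set (StarSubalgebra ℂ A), S.Nonempty ∧ DirectedOn (· ≤ ·) S ∧
        (∀ s ∈ S, FiniteDimensional ℂ s) ∧ Dense (⋃ s ∈ S, (s : Set A))) ∧
      (¬ ∃ D : Set A, D.Countable ∧ Dense D) ∧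
      IsEmpty (A ≃⋆ₐ[ℂ] Aᵐᵒᵖ) ∧
      (¬ ∃ f : A → A, (∀ a b, f (a + b) = f a + f b) ∧ (∀ (z : ℂ) (a : A), f (z • a) = z • f a) ∧
        (∀ a b, f (a * b) = f b * f a) ∧ Function.Bijective f) ∧
      (∃ (X : Type) (π : X → A →⋆ₐ[ℂ] Matrix (Fin 3) (Fin 3) ℂ),
        ∀ a : A, (∀ x : X, π x a = 0) → a = 0) := by
  have hno : ¬ ∃ f : A1 → A1, (∀ a b, f (a + b) = f a + f b) ∧
      (∀ (z : ℂ) (a : A1), f (z • a) = z • f a) ∧
      (∀ a b, f (a * b) = f b * f a) ∧ Function.Bijective f := by
    rintro ⟨f, h1, h2, h3, h4⟩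
    exact A1_no_anti f h1 h2 h3 h4
  refine ⟨A1, inferInstance, ⟨Set.range (fun p : Finset ℕ × Finset Col => TFG p.1 p.2),
    Set.range_nonempty _, ?_, ?_, TFG_dense⟩, A1_nonsep, ?_, hno, X, evU, evU_sep⟩
  · classical
    rintro _ ⟨⟨F, G⟩, rfl⟩ _ ⟨⟨F', G'⟩, rfl⟩
    exact ⟨TFG (F ∪ F') (G ∪ G'), ⟨(F ∪ F', G ∪ G'), rfl⟩,
      TFG_mono Finset.subset_union_left Finset.subset_union_left,
      TFG_mono Finset.subset_union_right Finset.subset_union_right⟩
  · rintro _ ⟨⟨F, G⟩, rfl⟩
    exact TFG_fd F G
  · constructor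
    intro e
    apply hno
    refine ⟨fun a => MulOpposite.unop (e a), fun a b => ?_, fun z a => ?_, fun a b => ?_, ?_⟩
    · show MulOpposite.unop (e (a + b)) = MulOpposite.unop (e a) + MulOpposite.unop (e b)
      rw [map_add, MulOpposite.unop_add]
    · show MulOpposite.unop (e (z • a)) = z • MulOpposite.unop (e a)
      rw [map_smul, MulOpposite.unop_smul]
    · show MulOpposite.unop (e (a * b)) = MulOpposite.unop (e b) * MulOpposite.unop (e a)
      rw [map_mul, MulOpposite.unop_mul]
    · exact MulOpposite.unop_bijective.comp e.bijective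

end Pool.Agent.Results.MP_5c3535_an.UnitalSubhomogeneous
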